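import Pool.Agent.H858.RU.Full

/-!
# Finiteness of the pure integral systems of rank two over all number fields

`F` is any number field (a subfield of the algebraic closure of `ℚ`, of finite degree), `w` is a natural
number, `S` is a finite set of primes and `Λ` is a set of primes (for instance all primes). An integral
system `T` of rank `2` over `F` (`IntegralSystem F 2`) consists of representations of the absolute Galois
group `G_F = F.fixingSubgroup` on `T_ℓ = ℤ_ℓ ^ 2` for all primes `ℓ` and of Frobenius polynomials with
integral coefficients. `T.PureSystem S w` says that it has the properties in the problem of the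
realisations of a pure motive of weight `w` over `F` with a lattice: pure good reduction of weight `w`
outside `S` (with Frobenius polynomials which do not depend on `ℓ`), semistable reduction in `S`, and
Hodge-Tate weights (Fontaine-Laffaille weights of `T_ℓ / ℓ`, for almost all `ℓ`) which are natural numbers.
No Hodge numbers are prescribed, there is no polarization and no condition on the Frobenius elements or on
the monodromy.

**Theorem.**
1. If one `V_ℓ'` is strongly irreducible (no open subgroup of `G_F` acts through a proper subalgebra of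
   the `2 × 2` matrices over `ℚ_ℓ'`) then `V_ℓ` is irreducible for all `ℓ` and `T_ℓ / ℓ` is irreducible for
   almost all `ℓ`.
2. If `V_ℓ` is semisimple for all `ℓ` in `Λ` then `T` is irreducible as in 1, or potentially abelian: an
   open subgroup of `G_F`, independent of `ℓ`, acts on `T_ℓ` through an abelian group, for `ℓ` in `Λ`.
3. For all `F`, `w`, `S` and `Λ` there are only finitely many pure systems of rank two with
   `V_ℓ` semisimple for all `ℓ` in `Λ`, up to isomorphism of the `T_ℓ` for all `ℓ` in `Λ`.
4. For each system as in 1 there are only finitely many Galois stable lattices in the adelic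
   realisation, up to multiplication by rational numbers.

Proof of 1, without class field theory. If `V_ℓ` is reducible for one `ℓ`, or `T_ℓ / ℓ` for infinitely
many `ℓ`, let `r` be the ratio of the two eigenvalues, a character of `G_F` with values in
`ℚ_ℓ` or `𝔽_ℓ`. Its transfer to the Galois group of `ℚ` is a power of the cyclotomic
character by Minkowski's theorem, and by purity its square is `1`: the product of the squares of the
ratios of the Frobenius eigenvalues at all the places of `F` above a prime is `1` (for a suitable
choice of the eigenvalues). Let `N` be an open normal subgroup of the Galois group of `ℚ` in `G_F`. For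
the conjugates of `V_ℓ'`, as representations of `N`, either the projective representations are
isomorphic, and then the conjugate of `r` is `r` or `r⁻¹`, or the adjoint representations are irreducible
and not isomorphic. If `r⁻¹` occurs, then for Frobenius elements `g` in a coset of `N` a power of `g` in
`N` has `r = 1` or `r = -1`, which is impossible for a strongly irreducible representation. Otherwise the
relation contradicts the lemma of Goursat for the tangent spaces (limits of
`p ^ (-n) (ρ (g_n) - 1)`) of the image of `N` in the product of the conjugates.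
-/

set_option autoImplicit false

namespace Pool.Agent.Results.MP_78e9a5_nt.RankTwoAllFields

open Pool.Agent.R390.SF Pool.Agent.R390.SF.IntegralSystem Pool.Agent.NH56.PA NumberField
open Pool.Agent.H858.RU

/-- The systems with the property `C` form finitely many classes up to isomorphism of the `T_ℓ`, `ℓ` in
`Λ`. -/
def FinitelyMany {F : SubFld ℚ} {n : ℕ} (Λ : Set ℕ) (C : IntegralSystem F n → Prop) : Prop :=
  ∃ (m : ℕ) (T : Fin m → IntegralSystem F n), (∀ i, C (T i)) ∧
    ∀ T' : IntegralSystem F n, C T' → ∃ i, IsomorphicOn Λ (T i) T'

/-- **Finiteness of the pure integral systems of rank two over all number fields.** -/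
theorem result (F : SubFld ℚ) [FiniteDimensional ℚ F] (w : ℕ) (S : Finset ℕ) :
    (∀ T : IntegralSystem F 2, T.PureSystem S w →
      (∃ (ℓ' : ℕ) (_ : Fact ℓ'.Prime), StrongIrr (T.rho ℓ')) → T.IsIrreducible Set.univ) ∧
    (∀ (Λ : Set ℕ) (T : IntegralSystem F 2), T.PureSystem S w → SemisimpleOn Λ T →
      T.IsIrreducible Set.univ ∨ PotAbelian Λ T) ∧
    (∀ Λ : Set ℕ, FinitelyMany Λ
      (fun T : IntegralSystem F 2 => T.PureSystem S w ∧ SemisimpleOn Λ T)) ∧
    ∀ T : IntegralSystem F 2, T.PureSystem S w →
      (∃ (ℓ' : ℕ) (_ : Fact ℓ'.Prime), StrongIrr (T.rho ℓ')) →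
      ∃ (m : ℕ) (L : Fin m → ∀ (ℓ : ℕ) [Fact ℓ.Prime], Submodule ℤ_[ℓ] (Fin 2 → ℚ_[ℓ])),
        (∀ i, T.IsLattice (L i)) ∧
        ∀ L' : (∀ (ℓ : ℕ) [Fact ℓ.Prime], Submodule ℤ_[ℓ] (Fin 2 → ℚ_[ℓ])), T.IsLattice L' →
          ∃ i, ProportionalOn Set.univ (L i) L' := by
  have h1 : ∀ T : IntegralSystem F 2, T.PureSystem S w →
      (∃ (ℓ' : ℕ) (_ : Fact ℓ'.Prime), StrongIrr (T.rho ℓ')) → T.IsIrreducible Set.univ := by
    rintro T hT ⟨ℓ', _, hs⟩
    obtain ⟨N, hN⟩ := res_irr all hT hs
    exact ⟨fun ℓ _ _ U hU => rat_irr all hT hs ℓ U hU, N, fun ℓ _ _ hNℓ U hU => hN ℓ hNℓ U hU⟩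
  refine ⟨h1, fun Λ T hT hss => ?_, fun Λ => finite_rank_two all F w S Λ, fun T hT hs =>
    lattices two_pos (h1 T hT hs)⟩
  by_cases hst : ∃ (ℓ : ℕ) (_ : Fact ℓ.Prime), StrongIrr (T.rho ℓ)
  · exact Or.inl (h1 T hT hst)
  · exact Or.inr (potAbelian all hT.toGoodSystem hss fun ℓ hℓ _ hs => hst ⟨ℓ, hℓ, hs⟩)

end Pool.Agent.Results.MP_78e9a5_nt.RankTwoAllFields
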