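import Pool.Agent.H500.ZO.Law
import Pool.Graph.R_pool_sql_team_seeded_3dad9d7b.NH56.PA.Fin
import Pool.Graph.R_pool_sql_team_seeded_3dad9d7b.NH56.PA.Ss
import Pool.Graph.R_pool_sql_team_seeded_3dad9d7b.NH56.PA.Diag
import Pool.Graph.R_pool_sql_team_seeded_3dad9d7b.NH56.PA.Chi
import Pool.Graph.R_pool_sql_team_seeded_3dad9d7b.NH56.PA.Nd1
import Pool.Graph.R_pool_sql_team_seeded_3dad9d7b.NH56.PA.Nd2
import Pool.Graph.R_pool_sql_team_seeded_3dad9d7b.NH56.PA.Rad
import Pool.Graph.R_pool_sql_team_seeded_3dad9d7b.NH56.PA.Open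
import Pool.Graph.R_pool_sql_team_seeded_3dad9d7b.NH56.PA.Lag
import Pool.Graph.R_pool_sql_team_seeded_3dad9d7b.NH56.PA.Ret
import Pool.Graph.R_pool_sql_team_seeded_3dad9d7b.NH56.PA.Avg
import Pool.Graph.R_pool_sql_team_seeded_3dad9d7b.NH56.PA.Rss
import Pool.Graph.R_pool_sql_team_seeded_3dad9d7b.NH56.PA.Iso

/-!
# Integral systems with solvable residual images: a zero-one law and Shafarevich finiteness

`F` is a number field, `n ≥ 1`, `w ≥ 0`, `S` a finite set of primes, `Λ` a set of primes.  An integral system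
(`IntegralSystem F n`) consists of representations of the absolute Galois group of `F` on
`T_ℓ = ℤ_ℓ ^ n` for all the primes `ℓ`, and of Frobenius polynomials with integral coefficients; it is
a `GoodSystem S w` if it has pure good reduction of weight `w` outside `S` (with Frobenius polynomials
independent of `ℓ`), as the realisations of a pure motive of weight `w` with a lattice.  Nothing is
assumed at the places above `S`, and there is no condition on Hodge numbers and no polarization.

1. Zero-one law.  Either the primes `ℓ` such that the image of the Galois group in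
`GL(T_ℓ / ℓ)` is solvable have natural density zero, or this image is solvable for ALL primes `ℓ`.
2. In the second case the system is potentially abelian (potential complex multiplication), if the
`V_ℓ` are semisimple.
3. There are only finitely many such systems up to isomorphism.

Proof.  2 is the theorem `Pool.Agent.H500.TH.solP` on residual representations with solvable images: over a
finite solvable extension `L` of `F` the Frobenius eigenvalues are the values of algebraic Hecke
characters (class field theory, Kummer theory and Chebotarev's theorem for families of fields,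
a theorem of Mal'cev).  The Frobenius traces over `L` are then functions of the ray class modulo
`ℓ^m`, modulo `ℓ^m`, and by the existence theorem of class field theory the commutators of the Galois
group of `L` act unipotently on `T_ℓ / ℓ` and trivially on `V_ℓ`.  3 follows from the library's theorem
for potentially abelian systems.
-/

set_option autoImplicit false

namespace Pool.Agent.Results.MP_78e9a5_nt.SolvableResidualImages

open Filter Topology
open Pool.Agent.R390.SF Pool.Agent.R390.SF.IntegralSystem Pool.Agent.NH56.PA NumberField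

/-- The systems with the property `C` form finitely many classes up to isomorphism of the `T_ℓ`, `ℓ` in
`Λ`. -/
def FinitelyMany {F : SubFld ℚ} {n : ℕ} (Λ : Set ℕ) (C : IntegralSystem F n → Prop) : Prop :=
  ∃ (m : ℕ) (T : Fin m → IntegralSystem F n), (∀ i, C (T i)) ∧
    ∀ T' : IntegralSystem F n, C T' → ∃ i, IsomorphicOn Λ (T i) T'

/-- The image of the Galois group in the automorphism group of `T_ℓ / ℓ` is solvable. -/
def SolvableAt {F : SubFld ℚ} {n : ℕ} (T : IntegralSystem F n) (ℓ : ℕ) : Prop :=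
  ∃ _ : Fact ℓ.Prime, Group.IsSolvable (T.res ℓ).range

/-- The set of primes `A` has natural density zero. -/
def DensityZero (A : ℕ → Prop) : Prop :=
  Tendsto (fun x : ℕ => ({ℓ : ℕ | ℓ ≤ x ∧ A ℓ}.ncard : ℝ) / (Nat.primeCounting x : ℝ)) atTop (𝓝 0)

/-- `V_ℓ` is semisimple for all `ℓ` in `Λ`. -/
def SemisimpleOn {F : SubFld ℚ} {n : ℕ} (Λ : Set ℕ) (T : IntegralSystem F n) : Prop :=
  ∀ (ℓ : ℕ) [Fact ℓ.Prime], ℓ ∈ Λ → ∀ U : Submodule ℚ_[ℓ] (Fin n → ℚ_[ℓ]),
    IsStable (T.rat ℓ) U →
      ∃ U' : Submodule ℚ_[ℓ] (Fin n → ℚ_[ℓ]), IsStable (T.rat ℓ) U' ∧ IsCompl U U'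

/-- isomorphic on `Λ`: symmetric and transitive -/
theorem iso_trans {F : SubFld ℚ} {n : ℕ} {Λ : Set ℕ} {T T' T'' : IntegralSystem F n}
    (h : IsomorphicOn Λ T T') (h' : IsomorphicOn Λ T T'') : IsomorphicOn Λ T' T'' := by
  intro ℓ _ hℓ
  obtain ⟨A, hA⟩ := h ℓ hℓ
  obtain ⟨B, hB⟩ := h' ℓ hℓ
  refine ⟨B * A⁻¹, fun g => ?_⟩
  rw [hA, hB]
  group

/-- **Integral systems with solvable residual images.** -/
theorem result (F : SubFld ℚ) [FiniteDimensional ℚ F] (n w : ℕ) (hn : 0 < n) (S : Finset ℕ)
    (Λ : Set ℕ) :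
    (∀ T : IntegralSystem F n, T.GoodSystem S w →
      DensityZero (SolvableAt T) ∨ ((∀ ℓ : ℕ, ℓ.Prime → SolvableAt T ℓ) ∧
        (SemisimpleOn Λ T → PotAbelian Λ T))) ∧
    FinitelyMany Λ (fun T : IntegralSystem F n =>
      T.GoodSystem S w ∧ SemisimpleOn Λ T ∧ ¬ DensityZero (SolvableAt T)) := by
  classical
  have h1 : ∀ T : IntegralSystem F n, T.GoodSystem S w → ¬ DensityZero (SolvableAt T) →
      SemisimpleOn Λ T → PotAbelian Λ T := fun T hT hd hs =>
    Pool.Agent.H500.ZO.all_SYS F n w S Λ T hn hT hs hd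
  refine ⟨?_, ?_⟩
  · intro T hT
    by_cases hd : DensityZero (SolvableAt T)
    · exact Or.inl hd
    · right
      refine ⟨fun ℓ hℓ => ?_, h1 T hT hd⟩
      have : Fact ℓ.Prime := ⟨hℓ⟩
      exact ⟨inferInstance, Pool.Agent.H500.ZO.law F n w S T hT hd ℓ⟩
  · obtain ⟨m, T, hT, hT'⟩ := finiteness (F := F) t_SS t_DIAG t_CHI t_ND1 t_ND2 t_OPEN t_LAG t_RAD
      t_RET t_AVG t_RSS t_ISO hn w S Λ
    -- the classes which contain a system of the given kind
    set I : Finset (Fin m) := Finset.univ.filter fun i => ∃ T' : IntegralSystem F n,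
      (T'.GoodSystem S w ∧ SemisimpleOn Λ T' ∧ ¬ DensityZero (SolvableAt T')) ∧
        IsomorphicOn Λ (T i) T' with hI
    have hex : ∀ i : I, ∃ T' : IntegralSystem F n,
        (T'.GoodSystem S w ∧ SemisimpleOn Λ T' ∧ ¬ DensityZero (SolvableAt T')) ∧
          IsomorphicOn Λ (T i.1) T' := fun i => (Finset.mem_filter.1 i.2).2
    choose T0 h0 h0' using hex
    refine ⟨I.card, fun a => T0 (I.equivFin.symm a), fun a => h0 _, ?_⟩
    intro T' hC
    obtain ⟨i, hi⟩ := hT' T' ⟨hC.1, h1 T' hC.1 hC.2.2 hC.2.1⟩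
    have hmem : i ∈ I := Finset.mem_filter.2 ⟨Finset.mem_univ i, T', hC, hi⟩
    refine ⟨I.equivFin ⟨i, hmem⟩, ?_⟩
    show IsomorphicOn Λ (T0 (I.equivFin.symm (I.equivFin ⟨i, hmem⟩))) T'
    rw [Equiv.symm_apply_apply]
    exact iso_trans (h0' ⟨i, hmem⟩) hi

end Pool.Agent.Results.MP_78e9a5_nt.SolvableResidualImages
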